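import Pool.Agent.H9.Beps.Final

/-!
# MP_975b05_an, Q1: property (BEPS) does not imply type 2

There is a real Banach space, and there is a complex Banach space, with the bilinear extension
property for subspaces and without (Rademacher) type 2. The definitions `BEPS` and `TypeTwo` are in
`Pool/Agent/H9/Beps/Notions.lean`.
-/

set_option autoImplicit false

namespace Pool.Agent.Results.MP_975b05_an.BEPSWithoutTypeTwo

open H9.Beps

/-- **Negative answer to Q1**, for both scalar fields: some Banach space has (BEPS) but does not
have type 2. -/
theorem result :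
    (∃ (X : Type) (_ : NormedAddCommGroup X) (_ : NormedSpace ℝ X) (_ : CompleteSpace X),
      BEPS ℝ X ∧ ¬ TypeTwo X) ∧
    (∃ (X : Type) (_ : NormedAddCommGroup X) (_ : NormedSpace ℂ X) (_ : CompleteSpace X),
      BEPS ℂ X ∧ ¬ TypeTwo X) :=
  ⟨final_real, final_complex⟩

end Pool.Agent.Results.MP_975b05_an.BEPSWithoutTypeTwo
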